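import Pool.Agent.Q120.NC.Gap
import Pool.Agent.Q120.AD.Main

/-!
# Exponential tilting for Cramér's model on a finite window
-/

set_option autoImplicit false

namespace Pool.Agent.Q120.TD

open Finset MeasureTheory Filter Pool.Agent.Q120.ET Pool.Agent.Q120.MF Pool.Agent.Q120.AD
open scoped Topology

/-- The second moment of the cardinality for a product weight. -/
theorem second_moment (a b : ℕ → ℝ) (W : Finset ℕ) (hab : ∀ n ∈ W, a n + b n ≠ 0) :
    ∑ T ∈ W.powerset, ((∏ n ∈ T, a n) * ∏ n ∈ W \ T, b n) * ((T.card : ℝ) - ∑ n ∈ W, a n / (a n + b n)) ^ 2 =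
      (∏ n ∈ W, (a n + b n)) * ∑ n ∈ W, (a n / (a n + b n)) * (b n / (a n + b n)) := by
  classical
  -- a generalization with a shift
  have key : ∀ W : Finset ℕ, (∀ n ∈ W, a n + b n ≠ 0) → ∀ c : ℝ,
      ∑ T ∈ W.powerset, ((∏ n ∈ T, a n) * ∏ n ∈ W \ T, b n) * ((T.card : ℝ) - ∑ n ∈ W, a n / (a n + b n) + c) ^ 2 =
        (∏ n ∈ W, (a n + b n)) * ((∑ n ∈ W, (a n / (a n + b n)) * (b n / (a n + b n))) + c ^ 2) := by
    intro W
    induction W using Finset.induction_on with
    | empty =>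
      intro _ c
      simp
    | insert m W hm ih =>
      intro hW c
      have hW' : ∀ n ∈ W, a n + b n ≠ 0 := fun n hn => hW n (mem_insert_of_mem hn)
      have hm0 : a m + b m ≠ 0 := hW m (mem_insert_self _ _)
      rw [sum_powerset_insert hm]
      obtain ⟨r, hr⟩ : ∃ r : ℝ, r = a m / (a m + b m) := ⟨_, rfl⟩
      have hr' : b m / (a m + b m) = 1 - r := by rw [hr]; field_simp; ring
      have h1 : ∀ T ∈ W.powerset, ((∏ n ∈ T, a n) * ∏ n ∈ insert m W \ T, b n) *
          ((T.card : ℝ) - ∑ n ∈ insert m W, a n / (a n + b n) + c) ^ 2 =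
          b m * (((∏ n ∈ T, a n) * ∏ n ∈ W \ T, b n) * ((T.card : ℝ) - ∑ n ∈ W, a n / (a n + b n) + (c - r)) ^ 2) := by
        intro T hT
        rw [mem_powerset] at hT
        have hmT : m ∉ T := fun h => hm (hT h)
        rw [insert_sdiff_of_notMem _ hmT, prod_insert (by
          rw [Finset.mem_sdiff]
          exact fun h => hm h.1), sum_insert hm, ← hr]
        ring
      have h2 : ∀ T ∈ W.powerset, ((∏ n ∈ insert m T, a n) * ∏ n ∈ insert m W \ insert m T, b n) *
          (((insert m T).card : ℝ) - ∑ n ∈ insert m W, a n / (a n + b n) + c) ^ 2 =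
          a m * (((∏ n ∈ T, a n) * ∏ n ∈ W \ T, b n) *
            ((T.card : ℝ) - ∑ n ∈ W, a n / (a n + b n) + (c + 1 - r)) ^ 2) := by
        intro T hT
        rw [mem_powerset] at hT
        have hmT : m ∉ T := fun h => hm (hT h)
        have h3 : insert m W \ insert m T = W \ T := by
          ext n
          simp only [Finset.mem_sdiff, mem_insert]
          constructor
          · rintro ⟨h4, h5⟩
            push Not at h5
            rcases h4 with h4 | h4
            · exact absurd h4 h5.1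
            · exact ⟨h4, h5.2⟩
          · rintro ⟨h4, h5⟩
            refine ⟨Or.inr h4, ?_⟩
            push Not
            exact ⟨fun h => hm (h ▸ h4), h5⟩
        rw [h3, prod_insert hmT, card_insert_of_notMem hmT, sum_insert hm, ← hr]
        push_cast
        ring
      rw [sum_congr rfl h1, sum_congr rfl h2, ← mul_sum, ← mul_sum, ih hW', ih hW', prod_insert hm, sum_insert hm,
        ← hr, hr']
      have h3 : a m = r * (a m + b m) := by rw [hr]; field_simp
      have h4 : b m = (1 - r) * (a m + b m) := by rw [← hr']; field_simp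
      obtain ⟨t, ht⟩ : ∃ t : ℝ, t = a m + b m := ⟨_, rfl⟩
      rw [← ht] at h3 h4 ⊢
      rw [h3, h4]
      ring
  have h1 := key W hab 0
  simp only [add_zero] at h1
  rw [h1]
  ring

/-- The tilted probabilities. -/
noncomputable def tp (s : ℝ) (n : ℕ) : ℝ := (1 / Real.log n * s) / (1 / Real.log n * s + (1 - 1 / Real.log n))

/-- The tilted mean. -/
noncomputable def tm (s : ℝ) (W : Finset ℕ) : ℝ := ∑ n ∈ W, tp s n

/-- The normalization. -/
noncomputable def tz (s : ℝ) (W : Finset ℕ) : ℝ := ∏ n ∈ W, (1 / Real.log (n : ℝ) * s + (1 - 1 / Real.log n))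

theorem pos_den {s : ℝ} (hs : 0 < s) {n : ℕ} (hn : 3 ≤ n) : 0 < 1 / Real.log (n : ℝ) * s + (1 - 1 / Real.log n) := by
  have h1 := one_lt_log hn
  have h2 : 1 / Real.log (n : ℝ) < 1 := by rw [div_lt_one (by linarith)]; exact h1
  have h3 : 0 < 1 / Real.log (n : ℝ) := by positivity
  have h4 : 0 < 1 / Real.log (n : ℝ) * s := by positivity
  linarith

theorem tp_mem {s : ℝ} (hs : 0 < s) {n : ℕ} (hn : 3 ≤ n) : 0 ≤ tp s n ∧ tp s n ≤ 1 := by
  have h1 := one_lt_log hn
  have h2 : 1 / Real.log (n : ℝ) < 1 := by rw [div_lt_one (by linarith)]; exact h1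
  have h3 : 0 < 1 / Real.log (n : ℝ) := by positivity
  have h4 : 0 < 1 / Real.log (n : ℝ) * s := by positivity
  have h5 := pos_den hs hn
  unfold tp
  constructor
  · positivity
  · rw [div_le_one h5]
    linarith

theorem weight_eq {W T : Finset ℕ} (s : ℝ) :
    cramerOn W T * s ^ T.card = (∏ n ∈ T, (1 / Real.log (n : ℝ) * s)) * ∏ n ∈ W \ T, (1 - 1 / Real.log (n : ℝ)) := by
  unfold cramerOn
  rw [prod_mul_distrib, prod_const]
  ring

theorem second_moment_tilted {W : Finset ℕ} (hW : ∀ n ∈ W, 3 ≤ n) {s : ℝ} (hs : 0 < s) :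
    ∑ T ∈ W.powerset, (cramerOn W T * s ^ T.card) * ((T.card : ℝ) - tm s W) ^ 2 ≤ tz s W * tm s W := by
  have h1 := second_moment (fun n => 1 / Real.log (n : ℝ) * s) (fun n => 1 - 1 / Real.log (n : ℝ)) W
    (fun n hn => (pos_den hs (hW n hn)).ne')
  have h2 : ∑ T ∈ W.powerset, (cramerOn W T * s ^ T.card) * ((T.card : ℝ) - tm s W) ^ 2 =
      tz s W * ∑ n ∈ W, tp s n * ((1 - 1 / Real.log (n : ℝ)) / (1 / Real.log n * s + (1 - 1 / Real.log n))) := by
    refine Eq.trans (sum_congr rfl (fun T _ => ?_)) h1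
    rw [weight_eq]
    rfl
  rw [h2]
  have hz : 0 ≤ tz s W := prod_nonneg (fun n hn => (pos_den hs (hW n hn)).le)
  apply mul_le_mul_of_nonneg_left _ hz
  unfold tm
  apply sum_le_sum
  intro n hn
  have h3 := tp_mem hs (hW n hn)
  have h4 := pos_den hs (hW n hn)
  have h5 : (1 - 1 / Real.log (n : ℝ)) / (1 / Real.log n * s + (1 - 1 / Real.log n)) ≤ 1 := by
    rw [div_le_one h4]
    have h6 := one_lt_log (hW n hn)
    have : 0 < 1 / Real.log (n : ℝ) * s := by positivity
    linarith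
  calc _ ≤ tp s n * 1 := mul_le_mul_of_nonneg_left h5 h3.1
    _ = tp s n := mul_one _

theorem total_tilted {W : Finset ℕ} (s : ℝ) : ∑ T ∈ W.powerset, cramerOn W T * s ^ T.card = tz s W := by
  unfold tz
  rw [prod_add]
  refine sum_congr rfl (fun T _ => ?_)
  rw [weight_eq]

/-- Chebyshev's inequality for the tilted weight. -/
theorem central {W : Finset ℕ} (hW : ∀ n ∈ W, 3 ≤ n) {s t : ℝ} (hs : 0 < s) (ht : 0 < t)
    (h2 : 2 * tm s W ≤ t ^ 2) :
    tz s W / 2 ≤ ∑ T ∈ W.powerset with |(T.card : ℝ) - tm s W| ≤ t, cramerOn W T * s ^ T.card := by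
  have h1 := sum_filter_add_sum_filter_not W.powerset (fun T => |(T.card : ℝ) - tm s W| ≤ t)
    (fun T => cramerOn W T * s ^ T.card)
  rw [total_tilted] at h1
  have hz : 0 ≤ tz s W := prod_nonneg (fun n hn => (pos_den hs (hW n hn)).le)
  have h3 : ∑ T ∈ W.powerset with ¬ |(T.card : ℝ) - tm s W| ≤ t, cramerOn W T * s ^ T.card ≤ tz s W / 2 := by
    have h4 : ∑ T ∈ W.powerset with ¬ |(T.card : ℝ) - tm s W| ≤ t, (cramerOn W T * s ^ T.card) * t ^ 2 ≤
        tz s W * tm s W := by
      refine le_trans ?_ (second_moment_tilted hW hs)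
      refine (sum_le_sum (g := fun T => (cramerOn W T * s ^ T.card) * ((T.card : ℝ) - tm s W) ^ 2) ?_).trans
        (sum_le_sum_of_subset_of_nonneg (filter_subset _ _) ?_)
      · intro T hT
        rw [mem_filter, mem_powerset] at hT
        have h5 := cramerOn_nonneg hW hT.1
        apply mul_le_mul_of_nonneg_left _ (by positivity)
        rw [← sq_abs ((T.card : ℝ) - tm s W)]
        exact pow_le_pow_left₀ ht.le (le_of_lt (not_le.1 hT.2)) 2
      · intro T hT _
        rw [mem_powerset] at hT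
        have h5 := cramerOn_nonneg hW hT
        positivity
    rw [← sum_mul] at h4
    have h5 : (∑ T ∈ W.powerset with ¬ |(T.card : ℝ) - tm s W| ≤ t, cramerOn W T * s ^ T.card) * t ^ 2 ≤
        tz s W / 2 * t ^ 2 := by nlinarith
    exact le_of_mul_le_mul_right h5 (by positivity)
  linarith

/-- **Lower bound for the upper tail.** -/
theorem tilt_up {W : Finset ℕ} (hW : ∀ n ∈ W, 3 ≤ n) {s t : ℝ} (hs : 1 ≤ s) (ht : 0 < t) (h2 : 2 * tm s W ≤ t ^ 2) :
    tz s W / 2 * s ^ (-(tm s W + t)) ≤ ∑ T ∈ W.powerset with tm s W - t ≤ (T.card : ℝ), cramerOn W T := by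
  have hs0 : 0 < s := by linarith
  have h1 := central hW hs0 ht h2
  have h3 : (∑ T ∈ W.powerset with |(T.card : ℝ) - tm s W| ≤ t, cramerOn W T * s ^ T.card) * s ^ (-(tm s W + t)) ≤
      ∑ T ∈ W.powerset with |(T.card : ℝ) - tm s W| ≤ t, cramerOn W T := by
    rw [sum_mul]
    apply sum_le_sum
    intro T hT
    rw [mem_filter, mem_powerset, abs_le] at hT
    have h4 := cramerOn_nonneg hW hT.1
    have h5 : s ^ T.card * s ^ (-(tm s W + t)) ≤ 1 := by
      rw [← Real.rpow_natCast, ← Real.rpow_add hs0]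
      apply Real.rpow_le_one_of_one_le_of_nonpos hs
      linarith [hT.2.2]
    calc cramerOn W T * s ^ T.card * s ^ (-(tm s W + t)) = cramerOn W T * (s ^ T.card * s ^ (-(tm s W + t))) := by ring
      _ ≤ cramerOn W T * 1 := mul_le_mul_of_nonneg_left h5 h4
      _ = cramerOn W T := mul_one _
  have h4 : ∑ T ∈ W.powerset with |(T.card : ℝ) - tm s W| ≤ t, cramerOn W T ≤
      ∑ T ∈ W.powerset with tm s W - t ≤ (T.card : ℝ), cramerOn W T := by
    refine sum_le_sum_of_subset_of_nonneg ?_ ?_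
    · intro T hT
      rw [mem_filter, abs_le] at hT
      rw [mem_filter]
      exact ⟨hT.1, by linarith [hT.2.1]⟩
    · intro T hT _
      rw [mem_filter, mem_powerset] at hT
      exact cramerOn_nonneg hW hT.1
  refine le_trans ?_ (h3.trans h4)
  exact mul_le_mul_of_nonneg_right h1 (by positivity)

/-- **Lower bound for the lower tail.** -/
theorem tilt_down {W : Finset ℕ} (hW : ∀ n ∈ W, 3 ≤ n) {s t : ℝ} (hs0 : 0 < s) (hs : s ≤ 1) (ht : 0 < t)
    (h2 : 2 * tm s W ≤ t ^ 2) :
    tz s W / 2 * s ^ (-(tm s W - t)) ≤ ∑ T ∈ W.powerset with (T.card : ℝ) ≤ tm s W + t, cramerOn W T := by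
  have h1 := central hW hs0 ht h2
  have h3 : (∑ T ∈ W.powerset with |(T.card : ℝ) - tm s W| ≤ t, cramerOn W T * s ^ T.card) * s ^ (-(tm s W - t)) ≤
      ∑ T ∈ W.powerset with |(T.card : ℝ) - tm s W| ≤ t, cramerOn W T := by
    rw [sum_mul]
    apply sum_le_sum
    intro T hT
    rw [mem_filter, mem_powerset, abs_le] at hT
    have h4 := cramerOn_nonneg hW hT.1
    have h5 : s ^ T.card * s ^ (-(tm s W - t)) ≤ 1 := by
      rw [← Real.rpow_natCast, ← Real.rpow_add hs0]
      apply Real.rpow_le_one hs0.le hs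
      linarith [hT.2.1]
    calc cramerOn W T * s ^ T.card * s ^ (-(tm s W - t)) = cramerOn W T * (s ^ T.card * s ^ (-(tm s W - t))) := by ring
      _ ≤ cramerOn W T * 1 := mul_le_mul_of_nonneg_left h5 h4
      _ = cramerOn W T := mul_one _
  have h4 : ∑ T ∈ W.powerset with |(T.card : ℝ) - tm s W| ≤ t, cramerOn W T ≤
      ∑ T ∈ W.powerset with (T.card : ℝ) ≤ tm s W + t, cramerOn W T := by
    refine sum_le_sum_of_subset_of_nonneg ?_ ?_
    · intro T hT
      rw [mem_filter, abs_le] at hT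
      rw [mem_filter]
      exact ⟨hT.1, by linarith [hT.2.2]⟩
    · intro T hT _
      rw [mem_filter, mem_powerset] at hT
      exact cramerOn_nonneg hW hT.1
  refine le_trans ?_ (h3.trans h4)
  exact mul_le_mul_of_nonneg_right h1 (by positivity)

end Pool.Agent.Q120.TD
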