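import Pool.Agent.Q120.TD.Moderate

/-!
# The deviations on a family of disjoint sets
-/

set_option autoImplicit false

namespace Pool.Agent.Q120.TD

open Finset MeasureTheory Filter Pool.Agent.Q120.ET Pool.Agent.Q120.MF Pool.Agent.Q120.AD Pool.Agent.Q120.NC
open scoped Topology

variable {Ω : Type*} [MeasurableSpace Ω] {μ : Measure Ω} [IsProbabilityMeasure μ] {A : Ω → Set ℕ}

theorem measurable_pred (hA : IsCramer μ A) (W : Finset ℕ) (F : Finset ℕ → Prop) :
    MeasurableSet {ω | F (tr A W ω)} := by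
  classical
  have h1 : {ω | F (tr A W ω)} = ⋃ T ∈ W.powerset.filter F, {ω | tr A W ω = T} := by
    ext ω
    rw [Set.mem_iUnion₂]
    constructor
    · intro h
      refine ⟨tr A W ω, ?_, rfl⟩
      rw [mem_filter, mem_powerset]
      exact ⟨fun n hn => (mem_tr.1 hn).1, h⟩
    · rintro ⟨T, hT, hω⟩
      have hω' : tr A W ω = T := hω
      show F (tr A W ω)
      rw [hω']
      exact (mem_filter.1 hT).2
  rw [h1]
  refine Finset.measurableSet_biUnion _ (fun T hT => ?_)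
  rw [mem_filter, mem_powerset] at hT
  rw [← law_set_eq A hT.1]
  exact measurableSet_law hA.random _ _

/-- The second Borel-Cantelli lemma for disjoint windows. -/
theorem bc_disjoint (hA : IsCramer μ A) (W : ℕ → Finset ℕ) (hW : ∀ i, ∀ n ∈ W i, 3 ≤ n)
    (hd : ∀ i j, i ≠ j → Disjoint (W i) (W j)) (F : ℕ → Finset ℕ → Prop) [∀ i, DecidablePred (F i)]
    (hS : ¬ Summable (fun i => ∑ T ∈ (W i).powerset with F i T, cramerOn (W i) T)) :
    ∀ᵐ ω ∂μ, ∃ᶠ i in atTop, F i (tr A (W i) ω) := by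
  classical
  obtain ⟨E, hE⟩ : ∃ E : ℕ → Set Ω, E = fun (i : ℕ) => {ω | F i (tr A (W i) ω)} := ⟨_, rfl⟩
  have hreal : ∀ i, μ.real (E i) = ∑ T ∈ (W i).powerset with F i T, cramerOn (W i) T := by
    intro i
    rw [hE]
    exact real_pred hA (hW i) (F i)
  have hmeas : ∀ i, MeasurableSet (E i) := fun i => by
    rw [hE]
    exact measurable_pred hA (W i) (F i)
  have hneg : ∀ n m, n ≠ m → μ.real (E n ∩ E m) ≤ μ.real (E n) * μ.real (E m) := by
    intro n m hnm
    have h1 : E n ∩ E m = {ω | ∀ i ∈ ({n, m} : Finset ℕ), F i (tr A (W i) ω)} := by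
      rw [hE]
      ext ω
      constructor
      · rintro ⟨h2, h3⟩ i hi
        rw [mem_insert, mem_singleton] at hi
        rcases hi with rfl | rfl
        · exact h2
        · exact h3
      · intro h2
        exact ⟨h2 n (by simp), h2 m (by simp)⟩
    rw [h1, real_all hA {n, m} W (fun i _ => hW i) (fun i _ j _ hij => hd i j hij) F, prod_pair hnm, hreal, hreal]
  have htot : Tendsto (tot μ E) atTop atTop := by
    have h1 : ∀ i, 0 ≤ ∑ T ∈ (W i).powerset with F i T, cramerOn (W i) T := fun i =>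
      sum_nonneg (fun T hT => cramerOn_nonneg (hW i) (mem_powerset.1 (mem_filter.1 hT).1))
    refine ((not_summable_iff_tendsto_nat_atTop_of_nonneg h1).1 hS).congr (fun N => ?_)
    exact sum_congr rfl (fun i _ => (hreal i).symm)
  filter_upwards [strong_law hmeas hneg htot] with ω hω
  have h1 : Tendsto (fun N => cnt E N ω) atTop atTop := by
    have h2 := hω.pos_mul_atTop one_pos htot
    refine h2.congr' ?_
    filter_upwards [htot.eventually_gt_atTop 0] with N hN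
    field_simp
  by_contra hcon
  rw [not_frequently, eventually_atTop] at hcon
  obtain ⟨N0, hN0⟩ := hcon
  obtain ⟨N, hN1, hN2⟩ := ((h1.eventually_gt_atTop (cnt E N0 ω)).and (eventually_ge_atTop N0)).exists
  have h2 : cnt E N ω = cnt E N0 ω := by
    unfold cnt
    refine (sum_subset (range_mono hN2) (fun i _ hi => ?_)).symm
    rw [mem_range, not_lt] at hi
    rw [Set.indicator_of_notMem]
    rw [hE]
    exact hN0 i hi
  linarith

theorem ev_large {W : ℕ → Finset ℕ} (hd : ∀ i j, i ≠ j → Disjoint (W i) (W j)) (N : ℕ) :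
    ∀ᶠ i in atTop, ∀ n ∈ W i, N ≤ n := by
  have h1 : ∀ n ∈ Finset.range N, ∀ᶠ i in atTop, n ∉ W i := by
    intro n _
    by_cases h : ∃ i, n ∈ W i
    · obtain ⟨i, hi⟩ := h
      filter_upwards [eventually_gt_atTop i] with j hj hn
      exact Finset.disjoint_left.1 (hd i j (by omega)) hi hn
    · push Not at h
      exact Eventually.of_forall h
  have h2 := (Filter.eventually_all_finset (Finset.range N)).2 h1
  filter_upwards [h2] with i hi n hn
  by_contra hcon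
  exact hi n (Finset.mem_range.2 (by omega)) hn

theorem ev_delta {W : ℕ → Finset ℕ} (hd : ∀ i j, i ≠ j → Disjoint (W i) (W j)) {δ : ℝ} (hδ : 0 < δ) :
    ∀ᶠ i in atTop, ∀ n ∈ W i, 1 / Real.log (n : ℝ) ≤ δ := by
  obtain ⟨N, hN⟩ := eventually_atTop.1 (hl.eventually_ge_atTop (1 / δ))
  filter_upwards [ev_large hd N] with i hi n hn
  have h1 := hN n (hi n hn)
  have h2 : 0 < 1 / δ := by positivity
  rw [div_le_iff₀ (by linarith)]
  rw [div_le_iff₀ hδ] at h1
  linarith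

/-- The normalization. -/
noncomputable def sc (W : ℕ → Finset ℕ) (i : ℕ) : ℝ := √(2 * mu (W i) * Real.log i)

theorem facts {W : ℕ → Finset ℕ} (hμ : Tendsto (fun i : ℕ => mu (W i) / Real.log i) atTop atTop) {c : ℝ}
    (hc : 0 < c) {θ : ℝ} (hθ : 0 < θ) : ∀ᶠ i : ℕ in atTop, 0 < mu (W i) ∧
    ∃ η : ℝ, 0 < η ∧ η ≤ θ ∧ η * mu (W i) = c * sc W i ∧ η ^ 2 / 2 * mu (W i) = c ^ 2 * Real.log i ∧
      η * √(mu (W i)) ≤ θ * Real.log i ∧ √(mu (W i)) ≤ θ * sc W i := by
  have h1 := hμ.eventually_ge_atTop (2 * c ^ 2 / θ ^ 2 + 1)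
  have h2 := hl.eventually_ge_atTop (2 * c ^ 2 / θ ^ 2 + 1 / (2 * θ ^ 2) + 1)
  filter_upwards [h1, h2] with i h1 h2
  have hc2 : 0 < 2 * c ^ 2 / θ ^ 2 := by positivity
  have hc3 : 0 < 1 / (2 * θ ^ 2) := by positivity
  have hL : 0 < Real.log (i : ℝ) := by linarith
  have hM : 0 < mu (W i) := by
    rw [le_div_iff₀ hL] at h1
    have : 0 < (2 * c ^ 2 / θ ^ 2 + 1) * Real.log i := by positivity
    linarith
  refine ⟨hM, c * (√(2 * Real.log i) / √(mu (W i))), ?_⟩
  obtain ⟨m, hm⟩ : ∃ m : ℝ, m = √(mu (W i)) := ⟨_, rfl⟩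
  obtain ⟨q, hq⟩ : ∃ q : ℝ, q = √(2 * Real.log i) := ⟨_, rfl⟩
  have hm0 : 0 < m := by rw [hm]; exact Real.sqrt_pos.2 hM
  have hq0 : 0 < q := by rw [hq]; exact Real.sqrt_pos.2 (by linarith)
  have hm2 : m ^ 2 = mu (W i) := by rw [hm]; exact Real.sq_sqrt hM.le
  have hq2 : q ^ 2 = 2 * Real.log i := by rw [hq]; exact Real.sq_sqrt (by linarith)
  have hsc : sc W i = m * q := by
    unfold sc
    rw [show 2 * mu (W i) * Real.log i = (m * q) ^ 2 by rw [mul_pow, hm2, hq2]; ring]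
    exact Real.sqrt_sq (by positivity)
  rw [← hm, ← hq, hsc]
  refine ⟨by positivity, ?_, ?_, ?_, ?_, ?_⟩
  · rw [← mul_div_assoc, div_le_iff₀ hm0]
    apply le_of_sq_le_sq _ (by positivity)
    rw [mul_pow, mul_pow, hq2, hm2]
    rw [le_div_iff₀ hL] at h1
    have h3 : (2 * c ^ 2 / θ ^ 2) * θ ^ 2 = 2 * c ^ 2 := by field_simp
    have h4 : (2 * c ^ 2 / θ ^ 2) * Real.log i ≤ mu (W i) := by nlinarith
    have h5 : (2 * c ^ 2 / θ ^ 2) * Real.log i * θ ^ 2 ≤ mu (W i) * θ ^ 2 := mul_le_mul_of_nonneg_right h4 (by positivity)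
    calc c ^ 2 * (2 * Real.log i) = (2 * c ^ 2 / θ ^ 2) * θ ^ 2 * Real.log i := by rw [h3]; ring
      _ = (2 * c ^ 2 / θ ^ 2) * Real.log i * θ ^ 2 := by ring
      _ ≤ mu (W i) * θ ^ 2 := h5
      _ = θ ^ 2 * mu (W i) := by ring
  · rw [← hm2]
    field_simp
  · rw [← hm2]
    have : Real.log (i : ℝ) = q ^ 2 / 2 := by rw [hq2]; ring
    rw [this]
    field_simp
  · have h3 : c * (q / m) * m = c * q := by field_simp
    rw [h3]
    have h4 : Real.log (i : ℝ) = q ^ 2 / 2 := by rw [hq2]; ring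
    rw [h4]
    have h5 : 2 * c / θ ≤ q := by
      apply le_of_sq_le_sq _ hq0.le
      rw [hq2, div_pow, mul_pow]
      have h6 : 2 ^ 2 * c ^ 2 / θ ^ 2 = 2 * (2 * c ^ 2 / θ ^ 2) := by ring
      rw [h6]
      linarith
    rw [div_le_iff₀ hθ] at h5
    nlinarith
  · have h5 : 1 / θ ≤ q := by
      apply le_of_sq_le_sq _ hq0.le
      rw [hq2, div_pow, one_pow]
      have h6 : 1 / θ ^ 2 = 2 * (1 / (2 * θ ^ 2)) := by field_simp
      rw [h6]
      linarith
    rw [div_le_iff₀ hθ] at h5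
    nlinarith

/-- **The upper bound for the deviations.** -/
theorem deviations_le (hA : IsCramer μ A) {W : ℕ → Finset ℕ} (hW : ∀ i, ∀ n ∈ W i, 3 ≤ n)
    (hμ : Tendsto (fun i : ℕ => mu (W i) / Real.log i) atTop atTop) {ε : ℝ} (hε : 0 < ε) (hε1 : ε ≤ 1) :
    ∀ᵐ ω ∂μ, ∀ᶠ i : ℕ in atTop, |((tr A (W i) ω).card : ℝ) - mu (W i)| ≤ (1 + ε) * sc W i := by
  classical
  obtain ⟨B, hB⟩ : ∃ B : ℕ → Set Ω, B = fun (i : ℕ) =>
    {ω | ¬ |((tr A (W i) ω).card : ℝ) - mu (W i)| ≤ (1 + ε) * sc W i} := ⟨_, rfl⟩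
  have hs : Summable (fun i : ℕ => 3 * (i : ℝ) ^ (-(1 + ε / 2))) :=
    (Real.summable_nat_rpow.2 (by linarith)).mul_left 3
  have hbound : ∀ᶠ i : ℕ in atTop, μ.real (B i) ≤ 3 * (i : ℝ) ^ (-(1 + ε / 2)) := by
    filter_upwards [facts hμ (show 0 < 1 + ε by linarith) (show 0 < ε / 4 by linarith),
      eventually_ge_atTop 3] with i h1 h2
    obtain ⟨hM, η, hη0, hηθ, h3, h4, _, _⟩ := h1
    have hi0 : (0 : ℝ) < i := by
      have : (3 : ℝ) ≤ i := by exact_mod_cast h2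
      linarith
    have hL : 0 ≤ Real.log (i : ℝ) := Real.log_natCast_nonneg i
    have hsub : B i ⊆ {ω | (1 + η) * mu (W i) < ((tr A (W i) ω).card : ℝ)} ∪
        {ω | ((tr A (W i) ω).card : ℝ) < (1 - η) * mu (W i)} := by
      intro ω hω
      rw [hB] at hω
      have hω' : ¬ |((tr A (W i) ω).card : ℝ) - mu (W i)| ≤ (1 + ε) * sc W i := hω
      rw [abs_le] at hω'
      by_contra hcon
      apply hω'
      simp only [Set.mem_union, Set.mem_ofPred_eq, not_or, not_lt] at hcon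
      constructor <;> nlinarith [hcon.1, hcon.2]
    have e1 : μ.real {ω | (1 + η) * mu (W i) < ((tr A (W i) ω).card : ℝ)} ≤ 2 * (i : ℝ) ^ (-(1 + ε / 2)) := by
      rw [real_pred hA (hW i) (fun T => (1 + η) * mu (W i) < (T.card : ℝ))]
      refine (tail_up (hW i) hη0 (by linarith)).trans ?_
      apply mul_le_mul_of_nonneg_left _ (by norm_num)
      rw [Real.rpow_def_of_pos hi0, Real.exp_le_exp]
      have h5 : η ^ 2 / 2 * (1 - η / 2) * mu (W i) = (1 + ε) ^ 2 * Real.log i * (1 - η / 2) := by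
        rw [← h4]; ring
      rw [h5]
      have h6 : 1 + ε / 2 ≤ (1 + ε) ^ 2 * (1 - η / 2) := by
        have g1 : (1 + 2 * ε) * (1 - ε / 8) ≤ (1 + ε) ^ 2 * (1 - η / 2) := by
          apply mul_le_mul (by nlinarith) (by linarith) (by linarith) (by positivity)
        nlinarith
      nlinarith
    have e2 : μ.real {ω | ((tr A (W i) ω).card : ℝ) < (1 - η) * mu (W i)} ≤ (i : ℝ) ^ (-(1 + ε / 2)) := by
      rw [real_pred hA (hW i) (fun T => (T.card : ℝ) < (1 - η) * mu (W i))]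
      refine (tail_down (hW i) hη0 (by linarith)).trans ?_
      rw [Real.rpow_def_of_pos hi0, Real.exp_le_exp, h4]
      have h6 : 1 + ε / 2 ≤ (1 + ε) ^ 2 := by nlinarith
      nlinarith
    have e3 := (measureReal_mono (μ := μ) hsub (measure_ne_top _ _)).trans (measureReal_union_le _ _)
    linarith
  have h1 := ae_eventually_notMem (tsum_ne_top_of_real (μ := μ) hs (f := B) hbound)
  filter_upwards [h1] with ω hω
  filter_upwards [hω] with i hi
  rw [hB] at hi
  exact not_not.1 hi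

theorem not_summable_of_le {P : ℕ → ℝ} (h : ∀ᶠ i : ℕ in atTop, 1 / (i : ℝ) ≤ P i) : ¬ Summable P := by
  intro hP
  apply Real.not_summable_one_div_natCast
  refine Summable.of_norm_bounded_eventually_nat hP ?_
  filter_upwards [h] with i hi
  rw [Real.norm_of_nonneg (by positivity)]
  exact hi

/-- **Large values occur infinitely often.** -/
theorem often_up (hA : IsCramer μ A) {W : ℕ → Finset ℕ} (hW : ∀ i, ∀ n ∈ W i, 3 ≤ n)
    (hd : ∀ i j, i ≠ j → Disjoint (W i) (W j))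
    (hμ : Tendsto (fun i : ℕ => mu (W i) / Real.log i) atTop atTop) {ε : ℝ} (hε : 0 < ε) (hε1 : ε ≤ 1) :
    ∀ᵐ ω ∂μ, ∃ᶠ i : ℕ in atTop, mu (W i) + (1 - ε) * sc W i ≤ ((tr A (W i) ω).card : ℝ) := by
  classical
  refine bc_disjoint hA W hW hd (fun i T => mu (W i) + (1 - ε) * sc W i ≤ (T.card : ℝ)) ?_
  refine not_summable_of_le ?_
  filter_upwards [facts hμ (show 0 < 1 - ε / 2 by linarith) (show 0 < ε / 16 by linarith),
    ev_delta hd (show 0 < ε / 16 by linarith), eventually_ge_atTop 3,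
    hl.eventually_ge_atTop (16 / ε)] with i h1 h2 h2' hlog
  obtain ⟨hM, η, hη0, hηθ, h3, h4, h5, h6⟩ := h1
  have hi0 : (0 : ℝ) < i := by
    have : (3 : ℝ) ≤ i := by exact_mod_cast h2'
    linarith
  have hsc : 0 ≤ sc W i := Real.sqrt_nonneg _
  have e1 := dev_up (hW i) h2 (by linarith) hη0 (by linarith) hM
  have e2 : 1 / (i : ℝ) ≤ 1 / 2 * Real.exp (-(η ^ 2 / 2 * (1 + ε / 16) * mu (W i)) - 2 * η * √(mu (W i))) := by
    have e3 : 1 / (i : ℝ) = 1 / 2 * Real.exp (Real.log 2 - Real.log i) := by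
      rw [Real.exp_sub, Real.exp_log (by norm_num), Real.exp_log hi0]
      field_simp
    rw [e3]
    apply mul_le_mul_of_nonneg_left _ (by norm_num)
    rw [Real.exp_le_exp]
    have e4 : η ^ 2 / 2 * (1 + ε / 16) * mu (W i) = (1 - ε / 2) ^ 2 * Real.log i * (1 + ε / 16) := by
      rw [← h4]; ring
    rw [e4]
    have e5 : Real.log 2 < 1 := by
      have := Real.log_two_lt_d9
      linarith
    rw [div_le_iff₀ hε] at hlog
    have e6 : (1 - ε / 2) ^ 2 * (1 + ε / 16) ≤ 1 - ε / 2 := by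
      have g1 : (1 - ε / 2) * (1 + ε / 16) ≤ 1 := by nlinarith
      calc (1 - ε / 2) ^ 2 * (1 + ε / 16) = (1 - ε / 2) * ((1 - ε / 2) * (1 + ε / 16)) := by ring
        _ ≤ (1 - ε / 2) * 1 := mul_le_mul_of_nonneg_left g1 (by linarith)
        _ = 1 - ε / 2 := mul_one _
    have e7 : (1 - ε / 2) ^ 2 * (1 + ε / 16) * Real.log i ≤ (1 - ε / 2) * Real.log i :=
      mul_le_mul_of_nonneg_right e6 (by
        have : 0 < 16 / ε := by positivity
        nlinarith)
    nlinarith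
  refine e2.trans (e1.trans ?_)
  refine sum_le_sum_of_subset_of_nonneg ?_ ?_
  · intro T hT
    rw [mem_filter] at hT ⊢
    refine ⟨hT.1, le_trans ?_ hT.2⟩
    have e3 : mu (W i) + η * mu (W i) * (1 - ε / 8) ≤ (1 + η) * (1 - η * (ε / 16)) * mu (W i) := by
      have e4 : 1 + η * (1 - ε / 8) ≤ (1 + η) * (1 - η * (ε / 16)) := by nlinarith [mul_pos hη0 hε]
      nlinarith
    rw [h3] at e3
    have e5 : (1 - ε) * sc W i ≤ ((1 - ε / 2) * (1 - ε / 8) - ε / 8) * sc W i :=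
      mul_le_mul_of_nonneg_right (by nlinarith) hsc
    nlinarith
  · intro T hT _
    rw [mem_filter, mem_powerset] at hT
    exact cramerOn_nonneg (hW i) hT.1

/-- **Small values occur infinitely often.** -/
theorem often_down (hA : IsCramer μ A) {W : ℕ → Finset ℕ} (hW : ∀ i, ∀ n ∈ W i, 3 ≤ n)
    (hd : ∀ i j, i ≠ j → Disjoint (W i) (W j))
    (hμ : Tendsto (fun i : ℕ => mu (W i) / Real.log i) atTop atTop) {ε : ℝ} (hε : 0 < ε) (hε1 : ε ≤ 1) :
    ∀ᵐ ω ∂μ, ∃ᶠ i : ℕ in atTop, ((tr A (W i) ω).card : ℝ) ≤ mu (W i) - (1 - ε) * sc W i := by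
  classical
  refine bc_disjoint hA W hW hd (fun i T => (T.card : ℝ) ≤ mu (W i) - (1 - ε) * sc W i) ?_
  refine not_summable_of_le ?_
  have hM16 : ∀ᶠ i : ℕ in atTop, 16 ≤ mu (W i) := by
    filter_upwards [hμ.eventually_ge_atTop 16, hl.eventually_ge_atTop 1] with i h1 h2
    rw [le_div_iff₀ (by linarith)] at h1
    nlinarith
  filter_upwards [facts hμ (show 0 < 1 - ε / 2 by linarith) (show 0 < ε / 16 by linarith),
    ev_delta hd (show 0 < ε / 64 by linarith), eventually_ge_atTop 3,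
    hl.eventually_ge_atTop (16 / ε), hM16] with i h1 h2 h2' hlog h16
  obtain ⟨hM, η, hη0, hηθ, h3, h4, h5, h6⟩ := h1
  have hi0 : (0 : ℝ) < i := by
    have : (3 : ℝ) ≤ i := by exact_mod_cast h2'
    linarith
  have hsc : 0 ≤ sc W i := Real.sqrt_nonneg _
  have e1 := dev_down (hW i) h2 (by linarith) hη0 (by linarith) h16
  have e2 : 1 / (i : ℝ) ≤ 1 / 2 * Real.exp (-(η ^ 2 / 2 * (1 + 4 * (ε / 64) + η) * mu (W i)) - 4 * η * √(mu (W i))) := by
    have e3 : 1 / (i : ℝ) = 1 / 2 * Real.exp (Real.log 2 - Real.log i) := by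
      rw [Real.exp_sub, Real.exp_log (by norm_num), Real.exp_log hi0]
      field_simp
    rw [e3]
    apply mul_le_mul_of_nonneg_left _ (by norm_num)
    rw [Real.exp_le_exp]
    have e4 : η ^ 2 / 2 * (1 + 4 * (ε / 64) + η) * mu (W i) = (1 - ε / 2) ^ 2 * Real.log i * (1 + ε / 16 + η) := by
      rw [← h4]; ring
    rw [e4]
    have e5 : Real.log 2 < 1 := by
      have := Real.log_two_lt_d9
      linarith
    rw [div_le_iff₀ hε] at hlog
    have e6 : (1 - ε / 2) ^ 2 * (1 + ε / 16 + η) ≤ 1 - ε / 2 := by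
      have g1 : (1 - ε / 2) * (1 + ε / 16 + η) ≤ 1 := by
        have g2 : (1 - ε / 2) * (1 + ε / 16 + η) ≤ (1 - ε / 2) * (1 + ε / 8) :=
          mul_le_mul_of_nonneg_left (by linarith) (by linarith)
        nlinarith
      calc (1 - ε / 2) ^ 2 * (1 + ε / 16 + η) = (1 - ε / 2) * ((1 - ε / 2) * (1 + ε / 16 + η)) := by ring
        _ ≤ (1 - ε / 2) * 1 := mul_le_mul_of_nonneg_left g1 (by linarith)
        _ = 1 - ε / 2 := mul_one _
    have hL0 : 0 ≤ Real.log (i : ℝ) := Real.log_natCast_nonneg i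
    have e7 : (1 - ε / 2) ^ 2 * (1 + ε / 16 + η) * Real.log i ≤ (1 - ε / 2) * Real.log i :=
      mul_le_mul_of_nonneg_right e6 hL0
    nlinarith
  refine e2.trans (e1.trans ?_)
  refine sum_le_sum_of_subset_of_nonneg ?_ ?_
  · intro T hT
    rw [mem_filter] at hT ⊢
    refine ⟨hT.1, le_trans hT.2 ?_⟩
    have e3 : (1 - η) * (1 + 2 * η * (ε / 64)) * mu (W i) ≤ mu (W i) - η * mu (W i) * (1 - ε / 8) := by
      have e4 : (1 - η) * (1 + 2 * η * (ε / 64)) ≤ 1 - η * (1 - ε / 8) := by nlinarith [mul_pos hη0 hε]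
      nlinarith
    rw [h3] at e3
    have e5 : (1 - ε) * sc W i ≤ ((1 - ε / 2) * (1 - ε / 8) - ε / 8) * sc W i :=
      mul_le_mul_of_nonneg_right (by nlinarith) hsc
    nlinarith
  · intro T hT _
    rw [mem_filter, mem_powerset] at hT
    exact cramerOn_nonneg (hW i) hT.1

end Pool.Agent.Q120.TD
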