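import Pool.Agent.Q120.TD.Family

/-!
# Oppermann's intervals
-/

set_option autoImplicit false

namespace Pool.Agent.Q120.TD

open Finset MeasureTheory Filter Pool.Agent.Q120.ET Pool.Agent.Q120.MF Pool.Agent.Q120.AD Pool.Agent.Q120.NC
open scoped Topology

variable {Ω : Type*} [MeasurableSpace Ω] {μ : Measure Ω} [IsProbabilityMeasure μ] {A : Ω → Set ℕ}

/-- The family of intervals `[lo i, lo i + i]`. -/
def opp (lo : ℕ → ℕ) (i : ℕ) : Finset ℕ := if 3 ≤ i then Icc (lo i) (lo i + i) else ∅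

theorem opp_three {lo : ℕ → ℕ} (hlo : ∀ i, i ^ 2 - i ≤ lo i) (i : ℕ) : ∀ n ∈ opp lo i, 3 ≤ n := by
  intro n hn
  unfold opp at hn
  split_ifs at hn with h
  · rw [mem_Icc] at hn
    have h1 := hlo i
    have h2 : 6 ≤ i ^ 2 - i := by
      obtain ⟨k, rfl⟩ : ∃ k, i = k + 3 := ⟨i - 3, by omega⟩
      have : (k + 3) ^ 2 = k ^ 2 + 6 * k + 9 := by ring
      have h3 : 0 ≤ k ^ 2 := Nat.zero_le _
      omega
    omega
  · simp at hn

theorem opp_disjoint {lo : ℕ → ℕ} (hd : ∀ i j, 3 ≤ i → i < j → lo i + i < lo j) (i j : ℕ) (hij : i ≠ j) :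
    Disjoint (opp lo i) (opp lo j) := by
  rw [Finset.disjoint_left]
  intro n hn hn'
  unfold opp at hn hn'
  split_ifs at hn hn' with h1 h2
  · rw [mem_Icc] at hn hn'
    rcases Nat.lt_or_gt_of_ne hij with h | h
    · have := hd i j h1 h
      omega
    · have := hd j i h2 h
      omega
  all_goals simp at hn hn'

theorem log_near {n m : ℕ} (hn : 3 ≤ n) (h1 : n ^ 2 - n ≤ m) (h2 : m ≤ n ^ 2 + n) :
    |Real.log (m : ℝ) - 2 * Real.log n| ≤ 1 / ((n : ℝ) - 1) := by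
  have hn3 : (3 : ℝ) ≤ n := by exact_mod_cast hn
  have hnn : n ≤ n ^ 2 := Nat.le_self_pow (by norm_num) n
  have h1' : (n : ℝ) ^ 2 - n ≤ m := by
    have : ((n ^ 2 - n : ℕ) : ℝ) ≤ m := by exact_mod_cast h1
    rw [Nat.cast_sub hnn] at this
    push_cast at this
    exact this
  have h2' : (m : ℝ) ≤ (n : ℝ) ^ 2 + n := by exact_mod_cast h2
  have hm : 0 < (m : ℝ) := by nlinarith
  have h3 : Real.log (m : ℝ) - 2 * Real.log n = Real.log ((m : ℝ) / (n : ℝ) ^ 2) := by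
    rw [Real.log_div hm.ne' (by positivity), Real.log_pow]
    push_cast
    ring
  rw [h3, abs_le]
  have hn2 : 0 < (n : ℝ) ^ 2 := by positivity
  constructor
  · have h4 := Real.one_sub_inv_le_log_of_pos (show 0 < (m : ℝ) / (n : ℝ) ^ 2 by positivity)
    refine le_trans ?_ h4
    rw [inv_div]
    have h5 : (n : ℝ) ^ 2 / m ≤ 1 + 1 / ((n : ℝ) - 1) := by
      have h6 : 1 + 1 / ((n : ℝ) - 1) = n / (n - 1) := by
        have : (n : ℝ) - 1 ≠ 0 := by linarith
        field_simp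
        ring
      rw [h6, div_le_div_iff₀ hm (by linarith)]
      nlinarith
    linarith
  · have h4 := Real.log_le_sub_one_of_pos (show 0 < (m : ℝ) / (n : ℝ) ^ 2 by positivity)
    refine h4.trans ?_
    have h5 : (m : ℝ) / (n : ℝ) ^ 2 ≤ 1 + 1 / n := by
      rw [div_le_iff₀ hn2]
      have h6 : (1 + 1 / (n : ℝ)) * (n : ℝ) ^ 2 = (n : ℝ) ^ 2 + n := by field_simp
      rw [h6]
      exact h2'
    have h6 : 1 / (n : ℝ) ≤ 1 / ((n : ℝ) - 1) := one_div_le_one_div_of_le (by linarith) (by linarith)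
    linarith

theorem mu_near {lo : ℕ → ℕ} (hlo1 : ∀ i, i ^ 2 - i ≤ lo i) (hlo2 : ∀ i, lo i ≤ i ^ 2) :
    ∀ᶠ n : ℕ in atTop, |mu (opp lo n) - n / (2 * Real.log n)| ≤ 1 := by
  filter_upwards [eventually_ge_atTop 3, hl.eventually_ge_atTop 2] with n hn hL
  have hn3 : (3 : ℝ) ≤ n := by exact_mod_cast hn
  have hnn : n ≤ n ^ 2 := Nat.le_self_pow (by norm_num) n
  have hterm : ∀ m ∈ Icc (lo n) (lo n + n), |1 / Real.log (m : ℝ) - 1 / (2 * Real.log n)| ≤ 1 / ((n : ℝ) - 1) / 8 := by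
    intro m hm
    rw [mem_Icc] at hm
    have e0 := hlo1 n
    have e1 := hlo2 n
    have e2 := log_near hn (m := m) (by omega) (by omega)
    have e3 : 1 / ((n : ℝ) - 1) ≤ 1 := by
      rw [div_le_one (by linarith)]
      linarith
    have e4 : 2 ≤ Real.log (m : ℝ) := by
      rw [abs_le] at e2
      linarith [e2.1]
    have e5 : 1 / Real.log (m : ℝ) - 1 / (2 * Real.log n) = -(Real.log m - 2 * Real.log n) / (Real.log m * (2 * Real.log n)) := by
      field_simp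
      ring
    rw [e5, abs_div, abs_neg]
    have e6 : |Real.log (m : ℝ) * (2 * Real.log n)| = Real.log (m : ℝ) * (2 * Real.log n) := abs_of_pos (by positivity)
    rw [e6]
    apply div_le_div₀ (by
      have : 0 < (n : ℝ) - 1 := by linarith
      positivity) e2 (by norm_num)
    nlinarith
  have h1 : mu (opp lo n) - n / (2 * Real.log n) =
      ∑ m ∈ Icc (lo n) (lo n + n), (1 / Real.log (m : ℝ) - 1 / (2 * Real.log n)) + 1 / (2 * Real.log n) := by
    unfold mu opp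
    rw [if_pos hn, sum_sub_distrib, sum_const, Nat.card_Icc, nsmul_eq_mul]
    have : lo n + n + 1 - lo n = n + 1 := by omega
    rw [this]
    push_cast
    ring
  rw [h1]
  have h2 : |∑ m ∈ Icc (lo n) (lo n + n), (1 / Real.log (m : ℝ) - 1 / (2 * Real.log n))| ≤ 1 / 2 := by
    refine (abs_sum_le_sum_abs _ _).trans ((sum_le_sum hterm).trans ?_)
    rw [sum_const, Nat.card_Icc, nsmul_eq_mul]
    have : lo n + n + 1 - lo n = n + 1 := by omega
    rw [this]
    push_cast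
    have h3 : ((n : ℝ) + 1) * (1 / ((n : ℝ) - 1) / 8) = ((n : ℝ) + 1) / (n - 1) / 8 := by ring
    rw [h3]
    have h4 : ((n : ℝ) + 1) / (n - 1) ≤ 2 := by
      rw [div_le_iff₀ (by linarith)]
      linarith
    linarith
  have h3 : |1 / (2 * Real.log (n : ℝ))| ≤ 1 / 2 := by
    rw [abs_of_pos (by positivity)]
    apply one_div_le_one_div_of_le (by norm_num)
    linarith
  exact (abs_add_le _ _).trans (by linarith)

theorem mu_tendsto {lo : ℕ → ℕ} (hlo1 : ∀ i, i ^ 2 - i ≤ lo i) (hlo2 : ∀ i, lo i ≤ i ^ 2) :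
    Tendsto (fun i : ℕ => mu (opp lo i) / Real.log i) atTop atTop := by
  rw [tendsto_atTop]
  intro K
  filter_upwards [mu_near hlo1 hlo2, hl.eventually_ge_atTop 2,
    ev_pow (2 * (|K| + 1)) (1 / 2) (by norm_num), eventually_ge_atTop 3] with n h1 h2 h3 h4
  rw [le_div_iff₀ (by linarith)]
  have hn3 : (3 : ℝ) ≤ n := by exact_mod_cast h4
  rw [abs_le] at h1
  have h5 : (n : ℝ) ^ ((1 : ℝ) / 2) ≤ n := by
    calc (n : ℝ) ^ ((1 : ℝ) / 2) ≤ (n : ℝ) ^ (1 : ℝ) := Real.rpow_le_rpow_of_exponent_le (by linarith) (by norm_num)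
      _ = n := Real.rpow_one _
  have h6 : (|K| + 1) * Real.log n ^ 2 ≤ n / (2 * Real.log n) := by
    rw [le_div_iff₀ (by linarith)]
    have : (|K| + 1) * Real.log n ^ 2 * (2 * Real.log n) = 2 * (|K| + 1) * Real.log n ^ 3 := by ring
    rw [this]
    linarith
  have h7 : K ≤ |K| := le_abs_self K
  have h8 : 0 ≤ |K| := abs_nonneg K
  have h9 : K * Real.log n ≤ |K| * Real.log n := mul_le_mul_of_nonneg_right h7 (by linarith)
  have h10 : |K| * Real.log n ≤ |K| * Real.log n ^ 2 := mul_le_mul_of_nonneg_left (by nlinarith) h8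
  nlinarith

theorem sc_near {lo : ℕ → ℕ} (hlo1 : ∀ i, i ^ 2 - i ≤ lo i) (hlo2 : ∀ i, lo i ≤ i ^ 2) {θ : ℝ} (hθ : 0 < θ)
    (hθ1 : θ ≤ 1) : ∀ᶠ n : ℕ in atTop, (1 - θ) * √n ≤ sc (opp lo) n ∧ sc (opp lo) n ≤ (1 + θ) * √n := by
  filter_upwards [mu_near hlo1 hlo2, hl.eventually_ge_atTop 2,
    ev_pow (2 / θ) 1 (by norm_num), eventually_ge_atTop 3] with n h1 h2 h3 h4
  have hn3 : (3 : ℝ) ≤ n := by exact_mod_cast h4
  rw [Real.rpow_one] at h3
  have h5 : 2 * Real.log n ≤ θ * n := by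
    have e1 : 2 / θ * Real.log n ≤ 2 / θ * Real.log n ^ 3 := by
      apply mul_le_mul_of_nonneg_left _ (by positivity)
      have : 1 ≤ Real.log (n : ℝ) ^ 2 := by nlinarith
      nlinarith
    have e2 : 2 / θ * Real.log n ≤ n := e1.trans h3
    have e3 : θ * (2 / θ * Real.log n) = 2 * Real.log n := by field_simp
    rw [← e3]
    exact mul_le_mul_of_nonneg_left e2 hθ.le
  rw [abs_le] at h1
  have h6 : (n : ℝ) = n / (2 * Real.log n) * (2 * Real.log n) := by field_simp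
  have h7 : 2 * mu (opp lo n) * Real.log n ≤ (1 + θ) * n := by nlinarith
  have h8 : (1 - θ) * n ≤ 2 * mu (opp lo n) * Real.log n := by nlinarith
  constructor
  · unfold sc
    apply Real.le_sqrt_of_sq_le
    rw [mul_pow, Real.sq_sqrt (by linarith)]
    refine le_trans ?_ h8
    apply mul_le_mul_of_nonneg_right _ (by linarith)
    nlinarith
  · unfold sc
    apply Real.sqrt_le_iff.2
    refine ⟨by positivity, ?_⟩
    rw [mul_pow, Real.sq_sqrt (by linarith)]
    refine h7.trans ?_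
    apply mul_le_mul_of_nonneg_right _ (by linarith)
    nlinarith

theorem ev_sqrt {ε : ℝ} (hε : 0 < ε) : ∀ᶠ n : ℕ in atTop, 1 ≤ ε * √(n : ℝ) := by
  have h1 : Tendsto (fun n : ℕ => √(n : ℝ)) atTop atTop := Real.tendsto_sqrt_atTop.comp tendsto_natCast_atTop_atTop
  filter_upwards [h1.eventually_ge_atTop (1 / ε)] with n hn
  rw [div_le_iff₀ hε] at hn
  linarith

/-- **The law of the deviations on Oppermann's intervals.** -/
theorem opp_law (hA : IsCramer μ A) {lo : ℕ → ℕ} (hlo1 : ∀ i, i ^ 2 - i ≤ lo i) (hlo2 : ∀ i, lo i ≤ i ^ 2)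
    (hd : ∀ i j, 3 ≤ i → i < j → lo i + i < lo j) {ε : ℝ} (hε : 0 < ε) (hε1 : ε ≤ 1) :
    ∀ᵐ ω ∂μ, (∀ᶠ n : ℕ in atTop, |((tr A (opp lo n) ω).card : ℝ) - n / (2 * Real.log n)| ≤ (1 + ε) * √n) ∧
      (∃ᶠ n : ℕ in atTop, n / (2 * Real.log n) + (1 - ε) * √n ≤ ((tr A (opp lo n) ω).card : ℝ)) ∧
      (∃ᶠ n : ℕ in atTop, ((tr A (opp lo n) ω).card : ℝ) ≤ n / (2 * Real.log n) - (1 - ε) * √n) := by
  have hW := opp_three hlo1
  have hdis := opp_disjoint hd
  have hμ := mu_tendsto hlo1 hlo2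
  filter_upwards [deviations_le hA hW hμ (show 0 < ε / 4 by linarith) (by linarith),
    often_up hA hW hdis hμ (show 0 < ε / 4 by linarith) (by linarith),
    often_down hA hW hdis hμ (show 0 < ε / 4 by linarith) (by linarith)] with ω h1 h2 h3
  have h4 := mu_near hlo1 hlo2
  have h5 := sc_near hlo1 hlo2 (show 0 < ε / 8 by linarith) (by linarith)
  have h6 := ev_sqrt (show 0 < ε / 2 by linarith)
  refine ⟨?_, ?_, ?_⟩
  · filter_upwards [h1, h4, h5, h6] with n h1 h4 h5 h6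
    have e1 : (1 + ε / 4) * sc (opp lo) n ≤ (1 + ε / 4) * ((1 + ε / 8) * √n) :=
      mul_le_mul_of_nonneg_left h5.2 (by linarith)
    have e2 : (1 + ε / 4) * ((1 + ε / 8) * √(n : ℝ)) ≤ (1 + ε / 2) * √n := by
      rw [← mul_assoc]
      apply mul_le_mul_of_nonneg_right _ (Real.sqrt_nonneg _)
      nlinarith
    rw [abs_le] at h1 h4 ⊢
    constructor <;> linarith [h1.1, h1.2, h4.1, h4.2]
  · refine (h2.and_eventually (h4.and (h5.and h6))).mono ?_
    rintro n ⟨h2, h4, h5, h6⟩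
    have e1 : (1 - ε / 4) * ((1 - ε / 8) * √n) ≤ (1 - ε / 4) * sc (opp lo) n :=
      mul_le_mul_of_nonneg_left h5.1 (by linarith)
    have e2 : (1 - ε / 2) * √n ≤ (1 - ε / 4) * ((1 - ε / 8) * √(n : ℝ)) := by
      rw [← mul_assoc]
      apply mul_le_mul_of_nonneg_right _ (Real.sqrt_nonneg _)
      nlinarith
    rw [abs_le] at h4
    linarith [h4.1]
  · refine (h3.and_eventually (h4.and (h5.and h6))).mono ?_
    rintro n ⟨h2, h4, h5, h6⟩
    have e1 : (1 - ε / 4) * ((1 - ε / 8) * √n) ≤ (1 - ε / 4) * sc (opp lo) n :=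
      mul_le_mul_of_nonneg_left h5.1 (by linarith)
    have e2 : (1 - ε / 2) * √n ≤ (1 - ε / 4) * ((1 - ε / 8) * √(n : ℝ)) := by
      rw [← mul_assoc]
      apply mul_le_mul_of_nonneg_right _ (Real.sqrt_nonneg _)
      nlinarith
    rw [abs_le] at h4
    linarith [h4.2]

end Pool.Agent.Q120.TD
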